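import Pool.Agent.R273.TpPiece

/-!
MP_4ff6b6_an, Q1: if `K` is a Cantor set of Newhouse thickness `> 1` and `f` is `C¹` with
`f 0 = 0` and `f' 0 > 0`, then `K` contains a pattern `{x - t, x, x + f t}` with `t > 0`
(and `t` may be taken as small as we like).
-/

namespace Pool.Agent.Results.MP_4ff6b6_an.ThickNonlinearPattern

open Set R273.Tp

/-- The operational form of a lower bound for the thickness. -/
lemma thick_of_lt {K : Set ℝ} (hK : IsCompact K) (h : 1 < newhouseThickness K) :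
    ∃ τ : ℝ, 1 < τ ∧ Thick K τ := by
  obtain ⟨c, hc1, hc2⟩ := exists_between h
  have hctop : c ≠ ⊤ := ne_top_of_lt hc2
  have hc0 : (1 : ℝ) < c.toReal := by
    have := (ENNReal.toReal_lt_toReal ENNReal.one_ne_top hctop).2 hc1
    simpa using this
  have hgap : ∀ u v, IsGap K u v →
      c.toReal * (v - u) ≤ rightBridgeEnd (fun g h => g ≤ h) K u v - v ∧
      c.toReal * (v - u) ≤ u - leftBridgeEnd (fun g h => g ≤ h) K u v := by
    intro u v huv
    have h1 : c ≤ min (ENNReal.ofReal ((rightBridgeEnd (fun g h => g ≤ h) K u v - v) / (v - u)))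
        (ENNReal.ofReal ((u - leftBridgeEnd (fun g h => g ≤ h) K u v) / (v - u))) := by
      refine hc2.le.trans ?_
      exact (iInf_le _ u).trans ((iInf_le _ v).trans (iInf_le _ huv))
    have hpos : 0 < v - u := by linarith [huv.2.2.1]
    have key : ∀ r : ℝ, c ≤ ENNReal.ofReal (r / (v - u)) → c.toReal * (v - u) ≤ r := by
      intro r hr
      have h2 : c.toReal ≤ r / (v - u) := by
        by_contra hcon
        push Not at hcon
        have h3 : ENNReal.ofReal (r / (v - u)) < ENNReal.ofReal c.toReal :=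
          (ENNReal.ofReal_lt_ofReal_iff (by linarith)).2 hcon
        rw [ENNReal.ofReal_toReal hctop] at h3
        exact absurd hr (not_le.mpr h3)
      rwa [le_div_iff₀ hpos] at h2
    exact ⟨key _ (h1.trans (min_le_left _ _)), key _ (h1.trans (min_le_right _ _))⟩
  refine ⟨c.toReal, hc0, ⟨?_, ?_⟩⟩
  · intro u v a b h1 h2 h3 h4
    have h5 := (hgap u v h1).1
    have h6 : rightBridgeEnd (fun g h => g ≤ h) K u v ≤ a := by
      refine csInf_le ?_ (Or.inl ⟨b, h2, h3, h4⟩)
      refine ⟨v, ?_⟩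
      rintro y (⟨b', -, hy, -⟩ | hy)
      · exact hy
      · rw [mem_singleton_iff] at hy
        rw [hy]
        exact le_csSup hK.bddAbove h1.2.1
    linarith
  · intro u v a b h1 h2 h3 h4
    have h5 := (hgap u v h1).2
    have h6 : b ≤ leftBridgeEnd (fun g h => g ≤ h) K u v := by
      refine le_csSup ?_ (Or.inl ⟨a, h2, h3, h4⟩)
      refine ⟨u, ?_⟩
      rintro y (⟨b', -, hy, -⟩ | hy)
      · exact hy
      · rw [mem_singleton_iff] at hy
        rw [hy]
        exact csInf_le hK.bddBelow h1.1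
    linarith

theorem result (K : Set ℝ) (hK : IsCantorSet K) (hτ : 1 < newhouseThickness K)
    (f : ℝ → ℝ) (hf : ContDiff ℝ 1 f) (hf0 : f 0 = 0) (hf' : 0 < deriv f 0) :
    ∀ ε > 0, ∃ x t : ℝ, 0 < t ∧ t < ε ∧ x - t ∈ K ∧ x ∈ K ∧ x + f t ∈ K := by
  intro ε hε
  obtain ⟨hne, hc, hp, htd⟩ := hK
  obtain ⟨τ, h1, h2⟩ := thick_of_lt hc hτ
  obtain ⟨x, t, h3, h4, h5, h6, h7⟩ :=
    local_pattern hc.isClosed hp.acc htd hne h1 h2 hf hf0 hf' (T₀ := ε / 2) (by linarith)
  exact ⟨x, t, h3, by linarith, h5, h6, h7⟩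

end Pool.Agent.Results.MP_4ff6b6_an.ThickNonlinearPattern
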